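import Mathlib

/-!
# A Keller map of affine four-space which is not injective: the polynomials

The classical limit of the endomorphism of the second Weyl algebra which is not surjective
(`Pool.Agent.Y825.DX`). Put `s = X y`, `W = 1 + 4 s` and let `K`, `C` be as below. The four components are
`c = X C`, `t = (K - W C) / X`, `τ = (1 + 3 W² - 12 W K² + 12 W² K C - 4 W³ C²) / X⁴` and
`a = W (1 + 2 W² - 6 W K² + 4 W² K C - W³ C²) / X⁶`.
-/

set_option autoImplicit false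

namespace Pool.Agent.Q0.Keller

section gen

variable {R : Type*} [CommRing R]

/-- the polynomial `κ` -/
def kap (s : R) : R := 1 + 6*s^2 - 40*s^3 - 57*s^4

/-- the polynomial `j` -/
def jj (s : R) : R := 3 + 18*s + 6*s^2 + 76*s^3

/-- the polynomial `C₀` -/
def C0 (s : R) : R := 1 - 6*s + 42*s^2 - 308*s^3 + 1050*s^4 - 4392*s^5 + 11856*s^6 + 37440*s^7 + 129564*s^8 +
    72320*s^9 - 860472*s^10 - 1559520*s^11 - 740772*s^12

/-- the quotient of `κ - W C₀` by `s` -/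
def T1 (s : R) : R := 2 - 12*s + 100*s^2 + 125*s^3 + 192*s^4 + 5712*s^5 - 84864*s^6 - 279324*s^7 - 590576*s^8 +
    571192*s^9 + 5001408*s^10 + 6978852*s^11 + 2963088*s^12

/-- the quotient of `φ` by `s⁴` -/
def phi4 (s : R) : R := -1500 - 2136*s - 27768*s^2 - 2832*s^3 + 3462300*s^4 + 7783408*s^5 + 24478464*s^6 +
    311078400*s^7 + 1182008224*s^8 + 6740488128*s^9 + 212471616*s^10 - 244934108032*s^11 -
    1440668185296*s^12 - 4189875156864*s^13 - 1740514639360*s^14 + 30290669740032*s^15 +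
    113840772685440*s^16 + 176464374396416*s^17 - 50988938819328*s^18 - 764560683528192*s^19 -
    1484464905479232*s^20 - 1418929209619200*s^21 - 696846045662208*s^22 - 140478247931904*s^23

/-- the quotient of `ψ` by `s⁶` -/
def psi6 (s : R) : R := -12712 + 64672*s + 1460102*s^2 + 4298472*s^3 + 9512128*s^4 + 52444544*s^5 + 175678904*s^6 +
    1441533296*s^7 + 68712304*s^8 - 59924106592*s^9 - 357464905008*s^10 - 1045234620864*s^11 -
    434453075776*s^12 + 7572667435008*s^13 + 28460193171360*s^14 + 44116093599104*s^15 -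
    12747234704832*s^16 - 191140170882048*s^17 - 371116226369808*s^18 - 354732302404800*s^19 -
    174211511415552*s^20 - 35119561982976*s^21

/-- the quotient of `Γ` by `s²` -/
def Gam2 (s : R) : R := -48 - 160*s + 12124*s^2 + 97832*s^3 + 276384*s^4 + 1079808*s^5 + 5226072*s^6 + 28532192*s^7
    + 123635152*s^8 - 718609792*s^9 - 10141086960*s^10 - 50051828928*s^11 - 119288640000*s^12 +
    58808016384*s^13 + 1379740808928*s^14 + 4522341828672*s^15 + 6208439661120*s^16 -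
    4818466001280*s^17 - 37110217103712*s^18 - 70678164403008*s^19 - 69105991705344*s^20 -
    35184418053120*s^21 - 7393591996416*s^22

/-- `e₁` -/
def e1 (s : R) : R := -12*(1+4*s)*kap s + 4*(1+4*s)^2*C0 s

/-- `e₂` -/
def e2 (s : R) : R := 4*(1+4*s)^2*kap s - 2*(1+4*s)^3*C0 s

theorem C0_eq (s : R) : C0 s = jj s - 6*(1+4*s)*kap s + 4*(kap s)^3 := by
  unfold C0 jj kap; ring

theorem T1_eq (s : R) : kap s - (1+4*s)*C0 s = s * T1 s := by
  unfold T1 kap C0; ring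

theorem phi_eq (s : R) : 1 + 3*(1+4*s)^2 - 12*(1+4*s)*(kap s)^2 + 12*(1+4*s)^2*(kap s * C0 s)
    - 4*(1+4*s)^3*(C0 s)^2 = s^4 * phi4 s := by
  unfold phi4 kap C0; ring

theorem psi_eq (s : R) : 1 + 2*(1+4*s)^2 - 6*(1+4*s)*(kap s)^2 + 4*(1+4*s)^2*(kap s * C0 s)
    - (1+4*s)^3*(C0 s)^2 = s^6 * psi6 s := by
  unfold psi6 kap C0; ring

theorem Gam_eq (s : R) : -(1+2*s)*(e1 s + (12*(kap s)^2 - 6*(1+4*s))*e2 s) + 2*e2 s =
    s^2 * Gam2 s := by
  unfold Gam2 e1 e2 kap C0; ring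

/-- `M` -/
def MM (X y g Y : R) : R := -(1+2*(X*y))*g - 2*X^2*Y

/-- `N` -/
def NN (X y g Y : R) : R := 2*g - 6*(1+4*(X*y))*MM X y g Y
  + 4*(3*(kap (X*y))^2*MM X y g Y + 3*kap (X*y)*X^4*(MM X y g Y)^2 + X^8*(MM X y g Y)^3)

/-- `K` -/
def KK (X y g Y : R) : R := kap (X*y) + X^4*MM X y g Y

/-- `C` -/
def CC (X y g Y : R) : R := C0 (X*y) + X^4*NN X y g Y

/-- the first component -/
def fc (X y g Y : R) : R := X*CC X y g Y

/-- the second component -/
def ft (X y g Y : R) : R := y*T1 (X*y) + X^3*(MM X y g Y - (1+4*(X*y))*NN X y g Y)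

/-- the third component -/
def ftau (X y g Y : R) : R := y^4*phi4 (X*y)
  + (-12*(1+4*(X*y))*(2*kap (X*y)*MM X y g Y + X^4*(MM X y g Y)^2)
    + 12*(1+4*(X*y))^2*(kap (X*y)*NN X y g Y + C0 (X*y)*MM X y g Y
        + X^4*(MM X y g Y*NN X y g Y))
    - 4*(1+4*(X*y))^3*(2*C0 (X*y)*NN X y g Y + X^4*(NN X y g Y)^2))

/-- the fourth component -/
def fa (X y g Y : R) : R := (1+4*(X*y)) * (y^6*psi6 (X*y) + g*y^2*Gam2 (X*y)
  - 2*Y*(e1 (X*y) + (12*(kap (X*y))^2 - 6*(1+4*(X*y)))*e2 (X*y))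
  + X^2*(e2 (X*y)*(12*kap (X*y)*(MM X y g Y)^2 + 4*X^4*(MM X y g Y)^3)
      - 6*(1+4*(X*y))*(MM X y g Y)^2 + 4*(1+4*(X*y))^2*(MM X y g Y*NN X y g Y)
      - (1+4*(X*y))^3*(NN X y g Y)^2))

variable (X y g Y : R)

theorem relC : CC X y g Y = (jj (X*y) + 2*X^4*g) - 6*(1+4*(X*y))*KK X y g Y
    + 4*(KK X y g Y)^3 := by
  unfold CC NN KK
  linear_combination C0_eq (X*y)

theorem relt : X * ft X y g Y = KK X y g Y - (1+4*(X*y))*CC X y g Y := by
  unfold ft KK CC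
  linear_combination -T1_eq (X*y)

theorem reltau : X^4 * ftau X y g Y = 1 + 3*(1+4*(X*y))^2 - 12*(1+4*(X*y))*(KK X y g Y)^2
    + 12*(1+4*(X*y))^2*(KK X y g Y*CC X y g Y) - 4*(1+4*(X*y))^3*(CC X y g Y)^2 := by
  unfold ftau KK CC
  linear_combination -phi_eq (X*y)

theorem rela : X^6 * fa X y g Y = (1+4*(X*y))*(1 + 2*(1+4*(X*y))^2
    - 6*(1+4*(X*y))*(KK X y g Y)^2
    + 4*(1+4*(X*y))^2*(KK X y g Y*CC X y g Y) - (1+4*(X*y))^3*(CC X y g Y)^2) := by
  have hN : NN X y g Y = 2*g + MM X y g Y*(12*(kap (X*y))^2 - 6*(1+4*(X*y)))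
      + X^4*(12*kap (X*y)*(MM X y g Y)^2 + 4*X^4*(MM X y g Y)^3) := by
    unfold NN; ring
  have hM : MM X y g Y = -(1+2*(X*y))*g - 2*X^2*Y := rfl
  have h1 := psi_eq (X*y)
  have h2 := Gam_eq (X*y)
  unfold fa KK CC
  generalize hMM : MM X y g Y = M at *
  generalize hNN : NN X y g Y = N at *
  generalize hk : kap (X*y) = k at *
  generalize hC : C0 (X*y) = C at *
  generalize he1 : e1 (X*y) = E1 at *
  generalize he2 : e2 (X*y) = E2 at *
  have he1' : E1 = -12*(1+4*(X*y))*k + 4*(1+4*(X*y))^2*C := by rw [← he1, e1, hk, hC]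
  have he2' : E2 = 4*(1+4*(X*y))^2*k - 2*(1+4*(X*y))^3*C := by rw [← he2, e2, hk, hC]
  linear_combination (-(1+4*(X*y)))*h1 - (1+4*(X*y))*X^4*g*h2
    - (1+4*(X*y))*X^4*(E1 + (12*k^2 - 6*(1+4*(X*y)))*E2)*hM - (1+4*(X*y))*X^4*E2*hN
    + (1+4*(X*y))*X^4*M*he1' + (1+4*(X*y))*X^4*N*he2'

end gen

end Pool.Agent.Q0.Keller

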