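import Pool.Agent.Q0.Keller1

/-!
# A Keller map of affine four-space which is not injective: the Jacobian determinant
-/

set_option autoImplicit false

namespace Pool.Agent.Q0.Keller

section der

variable {k R : Type*} [CommRing k] [CommRing R] [Algebra k R] (D : Derivation k R R)
  (X y g Y : R)

theorem D_num (n : ℕ) [n.AtLeastTwo] : D (ofNat(n) : R) = 0 := by
  have h : ((OfNat.ofNat n : ℕ) : R) = OfNat.ofNat n := Nat.cast_ofNat
  rw [← h]
  exact D.map_natCast _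

theorem D_s : D (X*y) = X*D y + y*D X := by
  rw [D.leibniz]; simp [smul_eq_mul]

theorem D_KK : D (KK X y g Y) = (12*(X*y) - 120*(X*y)^2 - 228*(X*y)^3) * D (X*y)
    + X^4*(-2*g*D (X*y) - (1+2*(X*y))*D g - 2*X^2*D Y - 4*X*Y*D X)
    + 4*X^3*MM X y g Y*D X := by
  unfold KK kap MM
  generalize X*y = s
  simp only [map_add, map_sub, map_neg, D.leibniz, D.leibniz_pow, D_num, D.map_one_eq_zero,
    smul_eq_mul, nsmul_eq_mul]
  push_cast
  ring

theorem D_CC : D (CC X y g Y) = (18 + 12*(X*y) + 228*(X*y)^2) * D (X*y) + 8*X^3*g*D X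
    + 2*X^4*D g - 24*KK X y g Y*D (X*y)
    + (12*(KK X y g Y)^2 - 6*(1+4*(X*y)))*D (KK X y g Y) := by
  rw [relC]
  generalize KK X y g Y = K
  unfold jj
  generalize X*y = s
  simp only [map_add, map_sub, D.leibniz, D.leibniz_pow, D_num, D.map_one_eq_zero,
    smul_eq_mul, nsmul_eq_mul]
  push_cast
  ring

theorem D_fc : D (fc X y g Y) = X*D (CC X y g Y) + CC X y g Y*D X := by
  rw [fc, D.leibniz]; simp [smul_eq_mul]

theorem D_ft : X*D (ft X y g Y) = -ft X y g Y*D X - 4*CC X y g Y*D (X*y) + D (KK X y g Y)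
    - (1+4*(X*y))*D (CC X y g Y) := by
  have h := congrArg D (relt X y g Y)
  generalize ft X y g Y = t at *
  generalize KK X y g Y = K at *
  generalize CC X y g Y = C at *
  generalize X*y = s at *
  simp only [map_add, map_sub, D.leibniz, D_num, D.map_one_eq_zero, smul_eq_mul] at h
  linear_combination h

theorem D_ftau : X^4*D (ftau X y g Y) = -4*X^3*ftau X y g Y*D X
    + (24*(1+4*(X*y)) - 48*(KK X y g Y)^2 + 96*(1+4*(X*y))*KK X y g Y*CC X y g Y
        - 48*(1+4*(X*y))^2*(CC X y g Y)^2)*D (X*y)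
    + (-24*(1+4*(X*y))*KK X y g Y + 12*(1+4*(X*y))^2*CC X y g Y)*D (KK X y g Y)
    + (12*(1+4*(X*y))^2*KK X y g Y - 8*(1+4*(X*y))^3*CC X y g Y)*D (CC X y g Y) := by
  have h := congrArg D (reltau X y g Y)
  generalize ftau X y g Y = t at *
  generalize KK X y g Y = K at *
  generalize CC X y g Y = C at *
  generalize X*y = s at *
  simp only [map_add, map_sub, D.leibniz, D.leibniz_pow, D_num, D.map_one_eq_zero, smul_eq_mul,
    nsmul_eq_mul] at h
  push_cast at h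
  linear_combination h

theorem D_fa : X^6*D (fa X y g Y) = -6*X^5*fa X y g Y*D X
    + 4*(1 + 6*(1+4*(X*y))^2 - 12*(1+4*(X*y))*(KK X y g Y)^2
        + 12*(1+4*(X*y))^2*KK X y g Y*CC X y g Y - 4*(1+4*(X*y))^3*(CC X y g Y)^2)*D (X*y)
    + (-12*(1+4*(X*y))^2*KK X y g Y + 4*(1+4*(X*y))^3*CC X y g Y)*D (KK X y g Y)
    + (4*(1+4*(X*y))^3*KK X y g Y - 2*(1+4*(X*y))^4*CC X y g Y)*D (CC X y g Y) := by
  have h := congrArg D (rela X y g Y)
  generalize fa X y g Y = t at *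
  generalize KK X y g Y = K at *
  generalize CC X y g Y = C at *
  generalize X*y = s at *
  simp only [map_add, map_sub, D.leibniz, D.leibniz_pow, D_num, D.map_one_eq_zero, smul_eq_mul,
    nsmul_eq_mul] at h
  push_cast at h
  linear_combination h

end der

section jac

variable {k : Type*} [CommRing k]

open MvPolynomial

/-- The Keller map: four polynomials in the variables `X = X 0`, `y = X 1`, `g = X 2`, `Y = X 3`. -/
noncomputable def F (k : Type*) [CommRing k] : Fin 4 → MvPolynomial (Fin 4) k :=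
  ![fc (X 0) (X 1) (X 2) (X 3), ft (X 0) (X 1) (X 2) (X 3), ftau (X 0) (X 1) (X 2) (X 3),
    fa (X 0) (X 1) (X 2) (X 3)]

/-- The Jacobian matrix. -/
noncomputable def jac {n : ℕ} {k : Type*} [CommRing k] (F : Fin n → MvPolynomial (Fin n) k) :
    Matrix (Fin n) (Fin n) (MvPolynomial (Fin n) k) := Matrix.of fun i j => pderiv j (F i)

theorem det4 {R : Type*} [CommRing R] (a00 a01 a02 a03 a10 a11 a12 a13 a20 a21 a22 a23 a30 a31
    a32 a33 : R) : Matrix.det !![a00, a01, a02, a03; a10, a11, a12, a13; a20, a21, a22, a23;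
      a30, a31, a32, a33] =
    a00*(a11*(a22*a33-a23*a32) - a12*(a21*a33-a23*a31) + a13*(a21*a32-a22*a31))
    - a01*(a10*(a22*a33-a23*a32) - a12*(a20*a33-a23*a30) + a13*(a20*a32-a22*a30))
    + a02*(a10*(a21*a33-a23*a31) - a11*(a20*a33-a23*a30) + a13*(a20*a31-a21*a30))
    - a03*(a10*(a21*a32-a22*a31) - a11*(a20*a32-a22*a30) + a12*(a20*a31-a21*a30)) := by
  rw [Matrix.det_succ_row_zero]
  simp [Fin.sum_univ_succ, Matrix.det_fin_three, Fin.succAbove, Matrix.submatrix]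
  ring

theorem det4' {R : Type*} [CommRing R] (A : Matrix (Fin 4) (Fin 4) R) : A.det =
    A 0 0*(A 1 1*(A 2 2*A 3 3-A 2 3*A 3 2) - A 1 2*(A 2 1*A 3 3-A 2 3*A 3 1)
      + A 1 3*(A 2 1*A 3 2-A 2 2*A 3 1))
    - A 0 1*(A 1 0*(A 2 2*A 3 3-A 2 3*A 3 2) - A 1 2*(A 2 0*A 3 3-A 2 3*A 3 0)
      + A 1 3*(A 2 0*A 3 2-A 2 2*A 3 0))
    + A 0 2*(A 1 0*(A 2 1*A 3 3-A 2 3*A 3 1) - A 1 1*(A 2 0*A 3 3-A 2 3*A 3 0)
      + A 1 3*(A 2 0*A 3 1-A 2 1*A 3 0))
    - A 0 3*(A 1 0*(A 2 1*A 3 2-A 2 2*A 3 1) - A 1 1*(A 2 0*A 3 2-A 2 2*A 3 0)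
      + A 1 2*(A 2 0*A 3 1-A 2 1*A 3 0)) := by
  have h : A = !![A 0 0, A 0 1, A 0 2, A 0 3; A 1 0, A 1 1, A 1 2, A 1 3;
      A 2 0, A 2 1, A 2 2, A 2 3; A 3 0, A 3 1, A 3 2, A 3 3] := by
    ext i j
    fin_cases i <;> fin_cases j <;> rfl
  conv_lhs => rw [h]
  exact det4 _ _ _ _ _ _ _ _ _ _ _ _ _ _ _ _

/-- the matrix of the chain rule -/
def TT {R : Type*} [CommRing R] (X y g Y : R) : Matrix (Fin 4) (Fin 4) R :=
  !![CC X y g Y, 0, 0, X;
    -ft X y g Y, -4*CC X y g Y, 1, -(1+4*(X*y));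
    -4*X^3*ftau X y g Y, 24*(1+4*(X*y)) - 48*(KK X y g Y)^2
        + 96*(1+4*(X*y))*KK X y g Y*CC X y g Y - 48*(1+4*(X*y))^2*(CC X y g Y)^2,
      -24*(1+4*(X*y))*KK X y g Y + 12*(1+4*(X*y))^2*CC X y g Y,
      12*(1+4*(X*y))^2*KK X y g Y - 8*(1+4*(X*y))^3*CC X y g Y;
    -6*X^5*fa X y g Y, 4*(1 + 6*(1+4*(X*y))^2 - 12*(1+4*(X*y))*(KK X y g Y)^2
        + 12*(1+4*(X*y))^2*KK X y g Y*CC X y g Y - 4*(1+4*(X*y))^3*(CC X y g Y)^2),
      -12*(1+4*(X*y))^2*KK X y g Y + 4*(1+4*(X*y))^3*CC X y g Y,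
      4*(1+4*(X*y))^3*KK X y g Y - 2*(1+4*(X*y))^4*CC X y g Y]

theorem det_TT {R : Type*} [CommRing R] (X y g Y : R) : (TT X y g Y).det = 16 := by
  rw [TT, det4]
  have h1 := relt X y g Y
  have h2 := reltau X y g Y
  have h3 := rela X y g Y
  generalize fa X y g Y = a at *
  generalize ftau X y g Y = τ at *
  generalize ft X y g Y = t at *
  generalize KK X y g Y = K at *
  generalize CC X y g Y = C at *
  generalize X*y = s at *
  linear_combination
    ((24*(1+4*s) - 48*K^2 + 96*(1+4*s)*K*C - 48*(1+4*s)^2*C^2) *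
        (-12*(1+4*s)^2*K + 4*(1+4*s)^3*C)
      - (-24*(1+4*s)*K + 12*(1+4*s)^2*C) *
        (4*(1 + 6*(1+4*s)^2 - 12*(1+4*s)*K^2 + 12*(1+4*s)^2*K*C - 4*(1+4*s)^3*C^2))) * h1
    + (16*C*(-12*(1+4*s)^2*K + 4*(1+4*s)^3*C)
      + 16*(1 + 6*(1+4*s)^2 - 12*(1+4*s)*K^2 + 12*(1+4*s)^2*K*C - 4*(1+4*s)^3*C^2)) * h2
    + (-24*C*(-24*(1+4*s)*K + 12*(1+4*s)^2*C)
      - 6*(24*(1+4*s) - 48*K^2 + 96*(1+4*s)*K*C - 48*(1+4*s)^2*C^2)) * h3

theorem X0_mul_cancel (p q : MvPolynomial (Fin 4) k) (h : X 0 * p = X 0 * q) : p = q := by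
  have := isRegular_X (R := k) (n := (0 : Fin 4))
  exact this.left h

theorem det_jac : (jac (F k)).det = 64 := by
  have key : (X 0 : MvPolynomial (Fin 4) k)^11 * (jac (F k)).det = (X 0)^11 * 64 := by
    set B : Matrix (Fin 4) (Fin 4) (MvPolynomial (Fin 4) k) := Matrix.of
      ![fun j => pderiv j (X 0), fun j => pderiv j (X 0 * X 1),
        fun j => pderiv j (KK (X 0) (X 1) (X 2) (X 3)),
        fun j => pderiv j (CC (X 0) (X 1) (X 2) (X 3))] with hB
    have h1 : Matrix.diagonal ![1, X 0, (X 0)^4, (X 0)^6] * jac (F k) =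
        TT (X 0) (X 1) (X 2) (X 3) * B := by
      ext1 i j
      rw [Matrix.diagonal_mul, Matrix.mul_apply, Fin.sum_univ_four]
      fin_cases i
      · have := D_fc (pderiv (R := k) j) (X 0) (X 1) (X 2) (X 3)
        simp [jac, F, TT, hB, -pderiv_X, -Derivation.leibniz, -pderiv_mul]
        linear_combination this
      · have := D_ft (pderiv (R := k) j) (X 0) (X 1) (X 2) (X 3)
        simp [jac, F, TT, hB, -pderiv_X, -Derivation.leibniz, -pderiv_mul]
        linear_combination this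
      · have := D_ftau (pderiv (R := k) j) (X 0) (X 1) (X 2) (X 3)
        simp [jac, F, TT, hB, -pderiv_X, -Derivation.leibniz, -pderiv_mul]
        linear_combination this
      · have := D_fa (pderiv (R := k) j) (X 0) (X 1) (X 2) (X 3)
        simp [jac, F, TT, hB, -pderiv_X, -Derivation.leibniz, -pderiv_mul]
        linear_combination this
    have h2 := congrArg Matrix.det h1
    rw [Matrix.det_mul, Matrix.det_mul, det_TT, Matrix.det_diagonal, Fin.prod_univ_four] at h2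
    have h3 : B.det = 4 * (X 0)^11 := by
      have e0 : ∀ j, B 0 j = pderiv j (X 0) := fun j => rfl
      have e1 : ∀ j, B 1 j = X 0 * pderiv j (X 1) + X 1 * pderiv j (X 0) := fun j => by
        rw [← D_s]; rfl
      have e2 : ∀ j, B 2 j = _ := fun j => D_KK (pderiv (R := k) j) (X 0) (X 1) (X 2) (X 3)
      have e3 : ∀ j, B 3 j = _ := fun j => D_CC (pderiv (R := k) j) (X 0) (X 1) (X 2) (X 3)
      simp only [D_s] at e2 e3
      rw [det4']
      simp only [e0, e1, e2, e3, D_KK, D_s]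
      simp only [pderiv_X, Pi.single_apply]
      simp
      ring
    rw [h3] at h2
    simp at h2
    linear_combination h2
  have h : ∀ m : ℕ, (X 0 : MvPolynomial (Fin 4) k)^m * (jac (F k)).det = (X 0)^m * 64 →
      (jac (F k)).det = 64 := by
    intro m
    induction m with
    | zero => intro h; simpa using h
    | succ m ih =>
      intro h
      apply ih
      apply X0_mul_cancel
      linear_combination h
  exact h 11 key

end jac

end Pool.Agent.Q0.Keller
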