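import Pool.Agent.Q0.Keller2

/-!
# From Keller maps to maps all of whose Jacobian matrices are unipotent

Let `F = x + P_0 + ... + P_m` be a polynomial map of `ℝⁿ`, with `P_j` homogeneous of degree `j + 2`, and put
`f(z_0, ..., z_m)_j = z_j - z_(j+1) + P_j(z_0)`, `z_(m+1) = 0`. If the Jacobian determinant of `F` is `1` then all
eigenvalues of all Jacobian matrices of `f` are `1`; and `f` is injective only if `F` is.
-/

set_option autoImplicit false

namespace Pool.Agent.Q0.Keller

open MvPolynomial

section calculus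

variable {σ : Type*} [Fintype σ]

theorem hasFDerivAt_eval (p : MvPolynomial σ ℝ) (x : σ → ℝ) :
    HasFDerivAt (fun x : σ → ℝ => eval x p)
      (∑ i, eval x (pderiv i p) • (ContinuousLinearMap.proj i : (σ → ℝ) →L[ℝ] ℝ)) x := by
  classical
  induction p using MvPolynomial.induction_on with
  | C a => simpa using hasFDerivAt_const (𝕜 := ℝ) a x
  | add p q hp hq =>
    simp only [map_add, add_smul, Finset.sum_add_distrib]
    exact hp.add hq
  | mul_X p n hp =>
    have h1 : HasFDerivAt (fun x : σ → ℝ => x n)
        (ContinuousLinearMap.proj n : (σ → ℝ) →L[ℝ] ℝ) x :=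
      (ContinuousLinearMap.proj n : (σ → ℝ) →L[ℝ] ℝ).hasFDerivAt
    have h2 := hp.mul h1
    have e1 : (fun x : σ → ℝ => eval x (p * X n)) = fun x => eval x p * x n := by
      funext x; simp
    have e2 : (∑ i, eval x (pderiv i (p * X n)) •
        (ContinuousLinearMap.proj i : (σ → ℝ) →L[ℝ] ℝ)) =
        eval x p • (ContinuousLinearMap.proj n : (σ → ℝ) →L[ℝ] ℝ) +
        x n • ∑ i, eval x (pderiv i p) • (ContinuousLinearMap.proj i : (σ → ℝ) →L[ℝ] ℝ) := by
      ext v
      simp only [ContinuousLinearMap.add_apply, ContinuousLinearMap.smul_apply,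
        ContinuousLinearMap.sum_apply, ContinuousLinearMap.proj_apply, smul_eq_mul,
        Derivation.leibniz, pderiv_X, map_add, map_mul, eval_X]
      rw [Finset.mul_sum]
      simp only [add_mul, Finset.sum_add_distrib]
      rw [Finset.sum_eq_single n]
      · simp [mul_assoc]
      · intro b _ hb
        simp [Pi.single_apply, hb]
      · simp
    rw [e1, e2]
    exact h2

theorem contDiff_eval (p : MvPolynomial σ ℝ) : ContDiff ℝ 1 (fun x : σ → ℝ => eval x p) := by
  induction p using MvPolynomial.induction_on with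
  | C a => simpa using contDiff_const
  | add p q hp hq => simpa using hp.add hq
  | mul_X p n hp =>
    have h1 : ContDiff ℝ 1 (fun x : σ → ℝ => x n) := contDiff_apply ℝ ℝ n
    simpa using hp.mul h1

theorem aeval_scale {q : MvPolynomial σ ℝ} {d : ℕ} (hq : q.IsHomogeneous d) (β : ℂ)
    (x : σ → ℝ) : aeval (fun i => β * (x i : ℂ)) q = β^d * ((eval x q : ℝ) : ℂ) := by
  classical
  rw [aeval_def, eval₂_eq', eval_eq', Complex.ofReal_sum, Finset.mul_sum]
  refine Finset.sum_congr rfl fun m hm => ?_
  have hd : ∑ i, m i = d := by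
    have := hq (mem_support_iff.1 hm)
    rw [← this, Finsupp.weight_apply, Finsupp.sum_fintype]
    · simp
    · simp
  simp only [mul_pow, Finset.prod_mul_distrib, Complex.ofReal_mul, Complex.ofReal_prod,
    Complex.ofReal_pow]
  rw [Finset.prod_pow_eq_pow_sum, hd]
  simp only [Complex.coe_algebraMap]
  ring

end calculus

theorem hc_one {n : ℕ} (p : MvPolynomial (Fin n) ℝ) (i : Fin n)
    (h : ∀ j, coeff (Finsupp.single j 1) p = if i = j then 1 else 0) :
    homogeneousComponent 1 p = X i := by
  classical
  ext d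
  rw [coeff_homogeneousComponent, coeff_X']
  split_ifs with h1 h2 h2
  · rw [← h2, h i, if_pos rfl]
  · obtain ⟨j, rfl⟩ : ∃ j, d = Finsupp.single j 1 := by
      have h1' : d.sum (fun _ n => n) = 1 := by
        rw [← h1]; rfl
      exact (Finsupp.sum_eq_one_iff d).1 h1'
    rw [h j, if_neg]
    rintro rfl
    exact h2 rfl
  · exfalso
    apply h1
    rw [← h2]
    simp
  · rfl

end Pool.Agent.Q0.Keller
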