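import Pool.Agent.Q0.Keller3

/-!
# From Keller maps to maps all of whose Jacobian matrices are unipotent: the reduction
-/

set_option autoImplicit false

namespace Pool.Agent.Q0.Keller

open MvPolynomial

section dd

variable {σ τ : Type*} [Fintype σ] [Fintype τ]

/-- the differential of a real polynomial at `x` applied to a complex vector `W` -/
noncomputable def dd (x : σ → ℝ) (W : σ → ℂ) (p : MvPolynomial σ ℝ) : ℂ :=
  ∑ b, ((eval x (pderiv b p) : ℝ) : ℂ) * W b

variable (x : σ → ℝ) (W : σ → ℂ)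

theorem dd_add (p q : MvPolynomial σ ℝ) : dd x W (p + q) = dd x W p + dd x W q := by
  simp [dd, add_mul, Finset.sum_add_distrib]

theorem dd_sub (p q : MvPolynomial σ ℝ) : dd x W (p - q) = dd x W p - dd x W q := by
  simp [dd, sub_mul, Finset.sum_sub_distrib]

theorem dd_zero : dd x W 0 = 0 := by
  simp [dd]

theorem dd_C (a : ℝ) : dd x W (C a) = 0 := by
  simp [dd]

theorem dd_X (a : σ) : dd x W (X a) = W a := by
  classical
  rw [dd, Finset.sum_eq_single a]
  · simp
  · intro b _ hb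
    rw [pderiv_X]
    simp [hb.symm]
  · simp

theorem dd_mul (p q : MvPolynomial σ ℝ) : dd x W (p * q) =
    dd x W p * ((eval x q : ℝ) : ℂ) + ((eval x p : ℝ) : ℂ) * dd x W q := by
  simp only [dd, Finset.mul_sum, Finset.sum_mul, ← Finset.sum_add_distrib]
  refine Finset.sum_congr rfl fun b _ => ?_
  rw [Derivation.leibniz]
  simp only [smul_eq_mul, map_add, map_mul, Complex.ofReal_add, Complex.ofReal_mul]
  ring

theorem dd_rename (g : τ → σ) (p : MvPolynomial τ ℝ) :
    dd x W (rename g p) = dd (fun k => x (g k)) (fun k => W (g k)) p := by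
  induction p using MvPolynomial.induction_on with
  | C a => rw [rename_C, dd_C, dd_C]
  | add p q hp hq => rw [map_add, dd_add, dd_add, hp, hq]
  | mul_X p n hp =>
    rw [map_mul, rename_X, dd_mul, dd_mul, hp, dd_X, dd_X, eval_X, eval_X, eval_rename]
    rfl

end dd

section reduction

variable {n m : ℕ} {σ : Type*} [Fintype σ]

/-- The polynomial of index `(j, i)` of the map in more variables. -/
noncomputable def QQ (e : Fin (m+1) × Fin n ≃ σ)
    (P : Fin (m+1) → Fin n → MvPolynomial (Fin n) ℝ) (j : Fin (m+1)) (i : Fin n) :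
    MvPolynomial σ ℝ :=
  X (e (j, i)) - (if h : j.1 + 1 < m + 1 then X (e (⟨j.1+1, h⟩, i)) else 0)
    + rename (fun k => e (0, k)) (P j i)

/-- The map in more variables. -/
noncomputable def ff (e : Fin (m+1) × Fin n ≃ σ)
    (P : Fin (m+1) → Fin n → MvPolynomial (Fin n) ℝ) (x : σ → ℝ) (a : σ) : ℝ :=
  eval x (QQ e P (e.symm a).1 (e.symm a).2)

theorem contDiff_ff (e : Fin (m+1) × Fin n ≃ σ)
    (P : Fin (m+1) → Fin n → MvPolynomial (Fin n) ℝ) : ContDiff ℝ 1 (ff e P) :=
  contDiff_pi.2 fun _ => contDiff_eval _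

theorem matrix_ff [DecidableEq σ] (e : Fin (m+1) × Fin n ≃ σ)
    (P : Fin (m+1) → Fin n → MvPolynomial (Fin n) ℝ) (x : σ → ℝ) :
    LinearMap.toMatrix' ((fderiv ℝ (ff e P) x : (σ → ℝ) →L[ℝ] (σ → ℝ)) :
      (σ → ℝ) →ₗ[ℝ] (σ → ℝ)) =
    Matrix.of fun a b => eval x (pderiv b (QQ e P (e.symm a).1 (e.symm a).2)) := by
  have h : HasFDerivAt (ff e P) (ContinuousLinearMap.pi fun a =>
      ∑ b, eval x (pderiv b (QQ e P (e.symm a).1 (e.symm a).2)) •
        (ContinuousLinearMap.proj b : (σ → ℝ) →L[ℝ] ℝ)) x :=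
    hasFDerivAt_pi.2 fun a => hasFDerivAt_eval _ x
  rw [h.fderiv]
  ext a b
  rw [LinearMap.toMatrix'_apply]
  simp [Pi.single_apply]

theorem recursion (α : ℂ) (w A : ℕ → ℂ) (h : ∀ j, j < m + 1 → w (j+1) = α * w j + A j) (j : ℕ)
    (hj : j ≤ m + 1) : w j = α^j * w 0 + ∑ l ∈ Finset.range j, α^(j-1-l) * A l := by
  induction j with
  | zero => simp
  | succ j ih =>
    rw [h j (by omega), ih (by omega), Finset.sum_range_succ, mul_add, Finset.mul_sum]
    have h1 : ∑ l ∈ Finset.range j, α * (α^(j-1-l) * A l) =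
        ∑ l ∈ Finset.range j, α^(j+1-1-l) * A l := by
      refine Finset.sum_congr rfl fun l hl => ?_
      have hl' := Finset.mem_range.1 hl
      rw [show j + 1 - 1 - l = (j - 1 - l) + 1 by omega, pow_succ]
      ring
    rw [h1]
    simp
    ring

theorem recursion' (α : ℂ) (hα : α ≠ 0) (w A : ℕ → ℂ)
    (h : ∀ j, j < m + 1 → w (j+1) = α * w j + A j) (hw : w (m+1) = 0) :
    w 0 + ∑ l ∈ Finset.range (m+1), (α⁻¹)^(l+1) * A l = 0 := by
  have h1 := recursion α w A h (m+1) le_rfl
  rw [hw] at h1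
  have h2 : ∑ l ∈ Finset.range (m+1), α^(m+1-1-l) * A l =
      α^(m+1) * ∑ l ∈ Finset.range (m+1), (α⁻¹)^(l+1) * A l := by
    rw [Finset.mul_sum]
    refine Finset.sum_congr rfl fun l hl => ?_
    have hl' := Finset.mem_range.1 hl
    have : α^(m+1) = α^(m-l) * α^(l+1) := by
      rw [← pow_add]; congr 1; omega
    rw [this, show m + 1 - 1 - l = m - l by omega, inv_pow]
    field_simp
  rw [h2, ← mul_add] at h1
  exact (mul_eq_zero.1 h1.symm).resolve_left (pow_ne_zero _ hα)

theorem eigen {G : Fin n → MvPolynomial (Fin n) ℝ} {P : Fin (m+1) → Fin n → MvPolynomial (Fin n) ℝ}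
    (e : Fin (m+1) × Fin n ≃ σ)
    (hP : ∀ j i, (P j i).IsHomogeneous (j.1+2)) (hG : ∀ i, G i = X i + ∑ j, P j i)
    (hdet : (jac G).det = 1) (x : σ → ℝ) (z : ℂ) (W : σ → ℂ)
    (hW : ∀ a, dd x W (QQ e P (e.symm a).1 (e.symm a).2) = z * W a) (hz : z ≠ 1) : W = 0 := by
  classical
  set w : ℕ → Fin n → ℂ := fun j i => if h : j < m + 1 then W (e (⟨j, h⟩, i)) else 0 with hw
  set x0 : Fin n → ℝ := fun k => x (e (0, k)) with hx0
  set A : ℕ → Fin n → ℂ := fun j i => if h : j < m + 1 then dd x0 (w 0) (P ⟨j, h⟩ i) else 0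
    with hA
  have hα : 1 - z ≠ 0 := sub_ne_zero.2 hz.symm
  have h1 : ∀ i, ∀ j, j < m + 1 → w (j+1) i = (1 - z) * w j i + A j i := by
    intro i j hj
    have h := hW (e (⟨j, hj⟩, i))
    rw [Equiv.symm_apply_apply] at h
    simp only [QQ] at h
    rw [dd_add, dd_sub, dd_X, dd_rename] at h
    have e1 : w j i = W (e (⟨j, hj⟩, i)) := dif_pos hj
    have e2 : w (j+1) i = dd x W (if h : j + 1 < m + 1 then X (e (⟨j+1, h⟩, i)) else 0) := by
      by_cases hj' : j + 1 < m + 1
      · simp only [hw, hj', dif_pos]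
        rw [dd_X]
      · simp only [hw, hj', dif_neg, not_false_eq_true]
        rw [dd_zero]
    have e3 : A j i = dd (fun k => x (e (0, k))) (fun k => W (e (0, k))) (P ⟨j, hj⟩ i) := by
      simp only [hA, hj, dif_pos, hx0]
      congr 1
    rw [e1, e2, e3]
    linear_combination -h
  have h2 : ∀ i, w 0 i + ∑ l ∈ Finset.range (m+1), ((1-z)⁻¹)^(l+1) * A l i = 0 := by
    intro i
    refine recursion' (1-z) hα (fun j => w j i) (fun j => A j i) (h1 i) ?_
    simp [hw]
  have h3 : w 0 = 0 := by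
    by_contra hne
    have hmul : ((jac G).map (aeval (fun k => (1-z)⁻¹ * (x0 k : ℂ)))).mulVec (w 0) = 0 := by
      ext i
      rw [Matrix.mulVec, dotProduct, Pi.zero_apply, ← h2 i]
      have e4 : ∀ k, (jac G).map (aeval (fun k => (1-z)⁻¹ * (x0 k : ℂ))) i k =
          (if i = k then 1 else 0) +
            ∑ l : Fin (m+1), ((1-z)⁻¹)^(l.1+1) * ((eval x0 (pderiv k (P l i)) : ℝ) : ℂ) := by
        intro k
        simp only [Matrix.map_apply, jac, Matrix.of_apply, hG, map_add, map_sum]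
        congr 1
        · rw [pderiv_X]
          by_cases hik : i = k
          · simp [hik]
          · simp [hik, Pi.single_apply]
        · refine Finset.sum_congr rfl fun l _ => ?_
          exact aeval_scale (hP l i).pderiv _ _
      simp only [e4, add_mul, Finset.sum_add_distrib, ite_mul, one_mul, zero_mul,
        Finset.sum_ite_eq, Finset.mem_univ, if_true]
      congr 1
      rw [Finset.sum_range (fun l => ((1-z)⁻¹)^(l+1) * A l i)]
      simp only [Finset.sum_mul]
      rw [Finset.sum_comm]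
      refine Finset.sum_congr rfl fun l _ => ?_
      simp only [hA, l.2, dif_pos, Fin.eta, dd, Finset.mul_sum, mul_assoc]
    have hd : ((jac G).map (aeval (R := ℝ) (fun k => (1-z)⁻¹ * (x0 k : ℂ)))).det = 1 := by
      have := (AlgHom.map_det (aeval (R := ℝ) (fun k => (1-z)⁻¹ * (x0 k : ℂ))) (jac G)).symm
      rw [hdet, map_one] at this
      exact this
    have := Matrix.exists_mulVec_eq_zero_iff.1 ⟨w 0, hne, hmul⟩
    rw [hd] at this
    exact one_ne_zero this
  have h4 : ∀ l i, A l i = 0 := by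
    intro l i
    simp only [hA, h3]
    split_ifs
    · simp [dd]
    · rfl
  have h5 : ∀ j, j ≤ m + 1 → ∀ i, w j i = 0 := by
    intro j hj i
    rw [recursion (1-z) (fun j => w j i) (fun j => A j i) (h1 i) j hj]
    simp [h4, h3]
  ext a
  obtain ⟨⟨⟨j, hj⟩, i⟩, rfl⟩ := e.surjective a
  have h6 := h5 j hj.le i
  have h7 : w j i = W (e (⟨j, hj⟩, i)) := dif_pos hj
  rw [← h7, h6]
  rfl

theorem charpoly_root [DecidableEq σ] {G : Fin n → MvPolynomial (Fin n) ℝ}
    {P : Fin (m+1) → Fin n → MvPolynomial (Fin n) ℝ} (e : Fin (m+1) × Fin n ≃ σ)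
    (hP : ∀ j i, (P j i).IsHomogeneous (j.1+2)) (hG : ∀ i, G i = X i + ∑ j, P j i)
    (hdet : (jac G).det = 1) (x : σ → ℝ) (z : ℂ)
    (hz : Polynomial.aeval z (LinearMap.toMatrix' ((fderiv ℝ (ff e P) x :
      (σ → ℝ) →L[ℝ] (σ → ℝ)) : (σ → ℝ) →ₗ[ℝ] (σ → ℝ))).charpoly = 0) : z = 1 := by
  by_contra hne
  rw [matrix_ff] at hz
  set M : Matrix σ σ ℝ := Matrix.of fun a b =>
    eval x (pderiv b (QQ e P (e.symm a).1 (e.symm a).2)) with hM
  have h1 : (Matrix.scalar σ z - M.map (algebraMap ℝ ℂ)).det = 0 := by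
    rw [← Matrix.eval_charpoly, Matrix.charpoly_map, Polynomial.eval_map_algebraMap]
    exact hz
  obtain ⟨W, hW0, hW⟩ := Matrix.exists_mulVec_eq_zero_iff.2 h1
  apply hW0
  refine eigen e hP hG hdet x z W (fun a => ?_) hne
  have h2 := congrFun hW a
  rw [Matrix.sub_mulVec, Pi.sub_apply, Pi.zero_apply, sub_eq_zero] at h2
  rw [Matrix.scalar_apply, Matrix.mulVec_diagonal] at h2
  rw [h2]
  rfl

theorem not_injective_ff {G : Fin n → MvPolynomial (Fin n) ℝ}
    {P : Fin (m+1) → Fin n → MvPolynomial (Fin n) ℝ} (e : Fin (m+1) × Fin n ≃ σ)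
    (hG : ∀ i, G i = X i + ∑ j, P j i) (p q : Fin n → ℝ) (hpq : p ≠ q)
    (hval : ∀ i, eval p (G i) = eval q (G i)) : ¬ Function.Injective (ff e P) := by
  classical
  intro hinj
  set R : ℕ → Fin n → ℝ := fun l i =>
    if h : l < m + 1 then eval q (P ⟨l, h⟩ i) - eval p (P ⟨l, h⟩ i) else 0 with hR
  set d : ℕ → Fin n → ℝ := fun j i => q i - p i + ∑ l ∈ Finset.range j, R l i with hd
  set x1 : σ → ℝ := fun a => if (e.symm a).1 = 0 then p (e.symm a).2 else 0 with hx1
  set x2 : σ → ℝ := fun a => x1 a + d (e.symm a).1.1 (e.symm a).2 with hx2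
  have hdm : ∀ i, d (m+1) i = 0 := by
    intro i
    have h := hval i
    rw [hG] at h
    simp only [map_add, map_sum, eval_X] at h
    simp only [hd]
    rw [Finset.sum_range (fun l => R l i)]
    have : ∑ l : Fin (m+1), R l.1 i = ∑ l, eval q (P l i) - ∑ l, eval p (P l i) := by
      rw [← Finset.sum_sub_distrib]
      exact Finset.sum_congr rfl fun l _ => dif_pos l.2
    rw [this]
    linarith
  have e1 : (fun k => x1 (e (0, k))) = p := by
    ext k; simp [hx1]
  have e2 : (fun k => x2 (e (0, k))) = q := by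
    ext k; simp [hx2, hx1, hd]
  have hf : ff e P x1 = ff e P x2 := by
    ext a
    obtain ⟨⟨j, i⟩, rfl⟩ := e.surjective a
    simp only [ff, Equiv.symm_apply_apply, QQ, map_add, map_sub, eval_X, eval_rename]
    have e3 : (x1 ∘ fun k => e (0, k)) = p := e1
    have e4 : (x2 ∘ fun k => e (0, k)) = q := e2
    rw [e3, e4]
    have e5 : x2 (e (j, i)) = x1 (e (j, i)) + d j.1 i := by simp [hx2]
    have e6 : d (j.1+1) i = d j.1 i + (eval q (P j i) - eval p (P j i)) := by
      simp only [hd]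
      rw [Finset.sum_range_succ, ← add_assoc]
      congr 1
      exact dif_pos j.2
    have e7 : eval x2 (if h : j.1 + 1 < m + 1 then (X (e (⟨j.1+1, h⟩, i)) :
        MvPolynomial σ ℝ) else 0) = eval x1 (if h : j.1 + 1 < m + 1 then
          (X (e (⟨j.1+1, h⟩, i)) : MvPolynomial σ ℝ) else 0) + d (j.1+1) i := by
      by_cases hj : j.1 + 1 < m + 1
      · simp only [hj, dif_pos, eval_X]
        simp [hx2]
      · have : j.1 + 1 = m + 1 := by have := j.2; omega
        simp only [hj, dif_neg, not_false_eq_true, map_zero]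
        rw [this, hdm, add_zero]
    rw [e5, e7, e6]
    ring
  have hx := hinj hf
  apply hpq
  rw [← e1, ← e2, hx]

end reduction

/-- From a Keller map over `ℝ` with identity linear part which is not injective, a polynomial map
all of whose Jacobian matrices have `1` as their only eigenvalue and which is not injective. -/
theorem reduction {n : ℕ} (G : Fin n → MvPolynomial (Fin n) ℝ)
    (h0 : ∀ i, coeff 0 (G i) = 0)
    (h1 : ∀ i j, coeff (Finsupp.single j 1) (G i) = if i = j then 1 else 0)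
    (hdet : (jac G).det = 1) (p q : Fin n → ℝ) (hpq : p ≠ q)
    (hval : ∀ i, eval p (G i) = eval q (G i)) :
    ∃ m : ℕ, ∃ f : (Fin ((m+1)*n) → ℝ) → (Fin ((m+1)*n) → ℝ), ContDiff ℝ 1 f ∧
      (∀ x : Fin ((m+1)*n) → ℝ, ∀ z : ℂ,
        Polynomial.aeval z (LinearMap.toMatrix' ((fderiv ℝ f x :
          (Fin ((m+1)*n) → ℝ) →L[ℝ] (Fin ((m+1)*n) → ℝ)) :
          (Fin ((m+1)*n) → ℝ) →ₗ[ℝ] (Fin ((m+1)*n) → ℝ))).charpoly = 0 → z = 1) ∧
      ¬ Function.Injective f := by
  classical
  set m : ℕ := ∑ i, (G i).totalDegree with hm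
  set P : Fin (m+1) → Fin n → MvPolynomial (Fin n) ℝ :=
    fun j i => homogeneousComponent (j.1+2) (G i) with hPdef
  have hP : ∀ j i, (P j i).IsHomogeneous (j.1+2) := fun j i =>
    homogeneousComponent_isHomogeneous _ _
  have hG : ∀ i, G i = X i + ∑ j, P j i := by
    intro i
    have hle : (G i).totalDegree ≤ m := by
      rw [hm]
      exact Finset.single_le_sum (f := fun i => (G i).totalDegree) (fun _ _ => Nat.zero_le _)
        (Finset.mem_univ i)
    have hs : ∑ l ∈ Finset.range (m+1+2), homogeneousComponent l (G i) = G i := by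
      conv_rhs => rw [← sum_homogeneousComponent (G i)]
      symm
      apply Finset.sum_subset
      · intro l hl
        rw [Finset.mem_range] at hl ⊢
        omega
      · intro l _ hl
        rw [Finset.mem_range] at hl
        exact homogeneousComponent_eq_zero _ _ (by omega)
    rw [Finset.sum_range_succ', Finset.sum_range_succ'] at hs
    rw [homogeneousComponent_zero, h0, C_0, add_zero] at hs
    rw [show (0+1 : ℕ) = 1 from rfl, hc_one (G i) i (h1 i)] at hs
    rw [Finset.sum_range] at hs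
    conv_lhs => rw [← hs]
    rw [add_comm]
  refine ⟨m, ff finProdFinEquiv P, contDiff_ff _ _, ?_, ?_⟩
  · intro x z hz
    exact charpoly_root finProdFinEquiv hP hG hdet x z hz
  · exact not_injective_ff finProdFinEquiv hG p q hpq hval

end Pool.Agent.Q0.Keller
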