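import Pool.Agent.Q0.Keller4

/-!
# A Keller map of affine four-space which is not injective: linear part and the two points
-/

set_option autoImplicit false

namespace Pool.Agent.Q0.Keller

open MvPolynomial

theorem coeff_single_eq {σ k : Type*} [CommRing k] (j : σ) (p : MvPolynomial σ k) :
    coeff (Finsupp.single j 1) p = eval (fun _ => 0) (pderiv j p) := by
  classical
  have h0 : ∀ p : MvPolynomial σ k, eval (fun _ => 0) p = constantCoeff p := fun p => by
    rw [← MvPolynomial.eval_zero]; rfl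
  rw [h0, constantCoeff_eq]
  induction p using MvPolynomial.induction_on' with
  | add p q hp hq => simp only [map_add, coeff_add, hp, hq]
  | monomial s a =>
    rw [pderiv_monomial, coeff_monomial, coeff_monomial]
    by_cases h : s = Finsupp.single j 1
    · subst h; simp
    · rw [if_neg h]
      by_cases h2 : s - Finsupp.single j 1 = 0
      · rw [if_pos h2]
        have hs : s j = 0 := by
          by_contra hs
          apply h
          rw [tsub_eq_zero_iff_le] at h2
          refine le_antisymm h2 ?_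
          rw [Finsupp.single_le_iff]
          omega
        rw [hs]; simp
      · rw [if_neg h2]

section lin

variable {R : Type*} [CommRing R]

theorem kap_zero : kap (0 : R) = 1 := by simp [kap]
theorem C0_zero : C0 (0 : R) = 1 := by simp [C0]
theorem T1_zero : T1 (0 : R) = 2 := by simp [T1]
theorem e1_zero : e1 (0 : R) = -8 := by simp [e1, kap, C0]; norm_num
theorem e2_zero : e2 (0 : R) = 2 := by simp [e2, kap, C0]; norm_num

variable {S : Type*} [CommRing S] (φ : R →+* S) (s : R)

theorem phi_num (n : ℕ) [n.AtLeastTwo] : φ (ofNat(n) : R) = ofNat(n) := map_ofNat φ n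

theorem map_kap : φ (kap s) = kap (φ s) := by simp [phi_num, kap]
theorem map_C0 : φ (C0 s) = C0 (φ s) := by simp [phi_num, C0]
theorem map_T1 : φ (T1 s) = T1 (φ s) := by simp [phi_num, T1]
theorem map_e1 : φ (e1 s) = e1 (φ s) := by simp [phi_num, e1, map_kap, map_C0]
theorem map_e2 : φ (e2 s) = e2 (φ s) := by simp [phi_num, e2, map_kap, map_C0]
theorem map_phi4 : φ (phi4 s) = phi4 (φ s) := by simp [phi_num, phi4]
theorem map_psi6 : φ (psi6 s) = psi6 (φ s) := by simp [phi_num, psi6]
theorem map_Gam2 : φ (Gam2 s) = Gam2 (φ s) := by simp [phi_num, Gam2]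

theorem map_MM (X y g Y : R) : φ (MM X y g Y) = MM (φ X) (φ y) (φ g) (φ Y) := by simp [phi_num, MM]
theorem map_NN (X y g Y : R) : φ (NN X y g Y) = NN (φ X) (φ y) (φ g) (φ Y) := by
  simp [phi_num, NN, map_MM, map_kap]
theorem map_CC (X y g Y : R) : φ (CC X y g Y) = CC (φ X) (φ y) (φ g) (φ Y) := by
  simp [phi_num, CC, map_NN, map_C0]
theorem map_fc (X y g Y : R) : φ (fc X y g Y) = fc (φ X) (φ y) (φ g) (φ Y) := by
  simp [phi_num, fc, map_CC]
theorem map_ft (X y g Y : R) : φ (ft X y g Y) = ft (φ X) (φ y) (φ g) (φ Y) := by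
  simp [phi_num, ft, map_MM, map_NN, map_T1]
theorem map_ftau (X y g Y : R) : φ (ftau X y g Y) = ftau (φ X) (φ y) (φ g) (φ Y) := by
  simp [phi_num, ftau, map_MM, map_NN, map_kap, map_C0, map_phi4]
theorem map_fa (X y g Y : R) : φ (fa X y g Y) = fa (φ X) (φ y) (φ g) (φ Y) := by
  simp [phi_num, fa, map_MM, map_NN, map_kap, map_e1, map_e2, map_psi6, map_Gam2]

end lin

theorem eval_F {k : Type*} [CommRing k] (x : Fin 4 → k) : (fun i => eval x (F k i)) =
    ![fc (x 0) (x 1) (x 2) (x 3), ft (x 0) (x 1) (x 2) (x 3), ftau (x 0) (x 1) (x 2) (x 3),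
      fa (x 0) (x 1) (x 2) (x 3)] := by
  ext i
  fin_cases i <;> simp [F, map_fc, map_ft, map_ftau, map_fa]

theorem eval_F_zero {k : Type*} [CommRing k] (i : Fin 4) : eval (fun _ => 0) (F k i) = 0 := by
  have := congrFun (eval_F (k := k) (fun _ => 0)) i
  rw [this]
  fin_cases i <;> simp [fc, ft, ftau, fa, MM, NN]

/-- the two points -/
theorem eval_F_p {k : Type*} [CommRing k] (i : Fin 4) :
    eval (![1, 0, 0, 0] : Fin 4 → k) (F k i) = (![1, 0, 0, 0] : Fin 4 → k) i := by
  have := congrFun (eval_F (k := k) ![1, 0, 0, 0]) i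
  rw [this]
  fin_cases i <;> simp [fc, ft, ftau, fa, CC, MM, NN, C0]

theorem eval_F_q {k : Type*} [Field k] [CharZero k] (i : Fin 4) :
    eval (![-1, 0, -3, 5/2] : Fin 4 → k) (F k i) = (![1, 0, 0, 0] : Fin 4 → k) i := by
  have := congrFun (eval_F (k := k) ![-1, 0, -3, 5/2]) i
  rw [this]
  fin_cases i <;> simp [fc, ft, ftau, fa, CC, MM, NN, kap, C0, e1, e2] <;> norm_num

section linear

variable {k : Type*} [CommRing k] (j : Fin 4)

/-- the differential at the origin -/
noncomputable def EE (p : MvPolynomial (Fin 4) k) : k := eval (fun _ => 0) (pderiv j p)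

theorem EE_add (p q : MvPolynomial (Fin 4) k) : EE j (p + q) = EE j p + EE j q := by simp [EE]
theorem EE_sub (p q : MvPolynomial (Fin 4) k) : EE j (p - q) = EE j p - EE j q := by simp [EE]
theorem EE_neg (p : MvPolynomial (Fin 4) k) : EE j (-p) = -EE j p := by simp [EE]
theorem EE_mul (p q : MvPolynomial (Fin 4) k) : EE j (p * q) =
    EE j p * eval (fun _ => 0) q + eval (fun _ => 0) p * EE j q := by
  simp only [EE, Derivation.leibniz, map_add, smul_eq_mul, map_mul]; ring
theorem EE_pow (p : MvPolynomial (Fin 4) k) (n : ℕ) : EE j (p^n) =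
    n * eval (fun _ => 0) p ^ (n-1) * EE j p := by
  simp only [EE, Derivation.leibniz_pow, smul_eq_mul, nsmul_eq_mul, map_mul, map_pow,
    map_natCast]; ring
theorem EE_num (n : ℕ) [n.AtLeastTwo] : EE j (ofNat(n) : MvPolynomial (Fin 4) k) = 0 := by
  rw [EE, D_num, map_zero]
theorem EE_one : EE j (1 : MvPolynomial (Fin 4) k) = 0 := by simp [EE]
theorem EE_X (i : Fin 4) : EE j (X i : MvPolynomial (Fin 4) k) = if i = j then 1 else 0 := by
  rw [EE, pderiv_X]
  by_cases h : i = j
  · simp [h]
  · simp [h, Pi.single_apply]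

theorem lin_F (i : Fin 4) : EE j (F k i) =
      if i = j then (![1, 2, -4, -8] : Fin 4 → k) i else 0 := by
  fin_cases i
  · simp [F, fc, EE_mul, EE_X, CC, map_C0 (constantCoeff (σ := Fin 4) (R := k)), C0_zero]
  · simp [F, ft, EE_mul, EE_X, EE_add, EE_sub, EE_pow, map_T1, T1_zero]
  · simp [F, ftau, EE_mul, EE_X, EE_add, EE_sub, EE_neg, EE_pow, EE_num, EE_one, phi_num, map_kap,
      kap_zero, map_C0, C0_zero, MM, NN]
    split_ifs
    · ring
    · ring
  · simp [F, fa, EE_mul, EE_X, EE_add, EE_sub, EE_neg, EE_pow, EE_num, EE_one, phi_num, map_kap,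
      kap_zero, map_C0, C0_zero, map_e1, e1_zero, map_e2, e2_zero, MM, NN]
    split_ifs
    · ring
    · ring

end linear

section normal

/-- the normalised map, with Jacobian determinant `1` and identity linear part -/
noncomputable def G4 (k : Type*) [Field k] [CharZero k] (i : Fin 4) : MvPolynomial (Fin 4) k :=
  C ((![1, 1/2, -(1/4), -(1/8)] : Fin 4 → k) i) * F k i

variable (k : Type*) [Field k] [CharZero k]

theorem G4_zero (i : Fin 4) : coeff 0 (G4 k i) = 0 := by
  have h := eval_F_zero (k := k) i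
  rw [← constantCoeff_eq, G4, map_mul]
  have : constantCoeff (F k i) = 0 := by
    rw [← h, ← MvPolynomial.eval_zero]; rfl
  rw [this, mul_zero]

theorem G4_lin (i j : Fin 4) : coeff (Finsupp.single j 1) (G4 k i) = if i = j then 1 else 0 := by
  rw [G4, coeff_C_mul, coeff_single_eq]
  have h := lin_F (k := k) j i
  rw [EE] at h
  rw [h]
  by_cases hij : i = j
  · rw [if_pos hij, if_pos hij]
    fin_cases i <;> norm_num
  · rw [if_neg hij, if_neg hij, mul_zero]

theorem G4_det : (jac (G4 k)).det = 1 := by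
  have h1 : jac (G4 k) = Matrix.diagonal
      (fun i => C ((![1, 1/2, -(1/4), -(1/8)] : Fin 4 → k) i)) * jac (F k) := by
    ext1 i j
    rw [Matrix.diagonal_mul]
    simp only [jac, Matrix.of_apply, G4, C_mul']
    exact Derivation.map_smul _ _ _
  rw [h1, Matrix.det_mul, det_jac, Matrix.det_diagonal, Fin.prod_univ_four, ← C_mul, ← C_mul,
    ← C_mul]
  have : (64 : MvPolynomial (Fin 4) k) = C 64 := (map_ofNat C 64).symm
  rw [this, ← C_mul, ← C_1]
  congr 1
  simp
  norm_num

theorem G4_val (i : Fin 4) : eval (![1, 0, 0, 0] : Fin 4 → k) (G4 k i) =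
    eval (![-1, 0, -3, 5/2] : Fin 4 → k) (G4 k i) := by
  rw [G4, map_mul, map_mul, eval_C, eval_C, eval_F_p, eval_F_q]

theorem points_ne : (![1, 0, 0, 0] : Fin 4 → k) ≠ ![-1, 0, -3, 5/2] := by
  intro h
  have := congrFun h 2
  simp at this

/-- **The Jacobian conjecture fails in dimension four** over every field of characteristic zero:
a polynomial endomorphism of affine four-space with Jacobian determinant `1` which takes the same
value at two distinct points. -/
theorem keller_four : ∃ G : Fin 4 → MvPolynomial (Fin 4) k, (jac G).det = 1 ∧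
    ∃ p q : Fin 4 → k, p ≠ q ∧ ∀ i, eval p (G i) = eval q (G i) :=
  ⟨G4 k, G4_det k, _, _, points_ne k, G4_val k⟩

end normal

end Pool.Agent.Q0.Keller
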